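import Mathlib

namespace Pool.Agent.Results.MP_f4f8d7_an.Glide

open Set Function Filter Topology

/-- The graph of `f : ℝ → ℝ` in the Euclidean plane `ℝ × ℝ` (with the `ℓ²` metric). -/
def graph (f : ℝ → ℝ) : Set (WithLp 2 (ℝ × ℝ)) := {p | p.snd = f p.fst}

theorem sm (b : ℕ → ℤ) (M : ℕ) (hb : ∀ k, |b k| ≤ M) (e : ℕ → ℕ) (he : ∀ k, k ≤ e k) :
    Summable (fun k => (b k : ℝ) * (1 / 2) ^ e k) ∧ |∑' k, (b k : ℝ) * (1 / 2) ^ e k| ≤ 2 * M := by
  have h : ∀ k, ‖(b k : ℝ) * (1 / 2) ^ e k‖ ≤ M * (1 / 2) ^ k := fun k => by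
    rw [norm_mul, norm_pow, Real.norm_eq_abs, Real.norm_eq_abs, abs_of_pos (by norm_num : (0:ℝ) < 1 / 2)]
    exact mul_le_mul (by exact_mod_cast hb k)
      (pow_le_pow_of_le_one (by norm_num) (by norm_num) (he k)) (by positivity) (by positivity)
  have g := hasSum_geometric_two.mul_left (M : ℝ)
  exact ⟨.of_norm_bounded g.summable h, by rw [mul_comm]; exact tsum_of_norm_bounded g h⟩

theorem dig (b : ℕ → ℤ) (M : ℕ) (hb : ∀ k, |b k| ≤ M)
    (h0 : ∑' k, (b k : ℝ) * (1 / 2) ^ (k * k) = 0) (N : ℕ) (hN : M < N) : b N = 0 := by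
  set r : ℕ → ℝ := fun N => ∑' j, (b (N + j) : ℝ) * (1 / 2) ^ (2 * N * j + j * j) with hr
  have s := fun N => sm (fun j => b (N + j)) M (fun j => hb _) (fun j => 2 * N * j + j * j)
    fun j => by nlinarith [Nat.zero_le (N * j)]
  have rc : ∀ N, r N = b N + (1 / 2) ^ (2 * N + 1) * r (N + 1) := fun N => by
    simp only [hr]
    rw [(s N).1.tsum_eq_zero_add, ← tsum_mul_left]
    congr 1
    · simp
    · refine tsum_congr fun j => ?_
      rw [show N + (j + 1) = N + 1 + j by ring, show 2 * N * (j + 1) + (j + 1) * (j + 1) =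
        (2 * N + 1) + (2 * (N + 1) * j + j * j) by ring, pow_add]
      ring
  have int : ∀ N, ∃ z : ℤ, r N = z := fun N => by
    induction N with
    | zero => exact ⟨0, by simpa [hr] using h0⟩
    | succ N ih =>
      obtain ⟨z, hz⟩ := ih
      refine ⟨2 ^ (2 * N + 1) * (z - b N), ?_⟩
      have := rc N
      rw [hz, one_div, inv_pow] at this
      push_cast
      rw [this]; field_simp; ring
  have z : ∀ N, M ≤ N → r (N + 1) = 0 := fun N hN => by
    obtain ⟨z, hz⟩ := int N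
    have a := rc N
    have p : (0 : ℝ) < (1 / 2) ^ (2 * N + 1) := by positivity
    have c : |(1 / 2 : ℝ) ^ (2 * N + 1) * r (N + 1)| < 1 := by
      rw [abs_mul, abs_of_pos p]
      have h1 : (2 * M : ℝ) < 2 ^ (2 * N + 1) := by
        have := Nat.lt_two_pow_self (n := 2 * N + 1)
        exact_mod_cast (by omega : 2 * M < 2 ^ (2 * N + 1))
      rw [one_div, inv_pow, inv_mul_lt_iff₀ (by positivity), mul_one]
      exact (s (N + 1)).2.trans_lt h1
    have d : (1 / 2 : ℝ) ^ (2 * N + 1) * r (N + 1) = (z - b N : ℤ) := by push_cast; linarith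
    rw [d, ← Int.cast_abs, ← Int.cast_one, Int.cast_lt, Int.abs_lt_one_iff] at c
    rw [c, Int.cast_zero] at d
    exact (mul_eq_zero.1 d).resolve_left p.ne'
  obtain ⟨n, rfl⟩ : ∃ n, N = n + 1 := ⟨N - 1, by omega⟩
  have := rc (n + 1)
  rw [z n (by omega), z (n + 1) (by omega)] at this
  exact_mod_cast (by simpa using this.symm : (b (n + 1) : ℝ) = 0)

theorem bin (s : ℝ) : ∃ a : ℕ → ℤ, (∃ M : ℕ, ∀ n, |a n| ≤ M) ∧
    ∑' n, (a n : ℝ) * (1 / 2) ^ n = s := by
  let a : ℕ → ℤ := fun n => Nat.casesOn n ⌊s⌋ fun m => ⌊2 ^ (m + 1) * s⌋ - 2 * ⌊2 ^ m * s⌋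
  have hb : ∀ n, |a n| ≤ (⌊s⌋.natAbs + 1 : ℕ) := fun n => by
    cases n with
    | zero => simp [a]
    | succ m =>
      have h1 := Int.floor_le (2 ^ (m + 1) * s)
      have h2 := Int.lt_floor_add_one (2 ^ (m + 1) * s)
      have h3 := Int.floor_le (2 ^ m * s)
      have h4 := Int.lt_floor_add_one (2 ^ m * s)
      have e : 2 ^ (m + 1) * s = 2 * (2 ^ m * s) := by ring
      have k1 : ((a (m + 1) : ℤ) : ℝ) < (2 : ℤ) := by simp only [a]; push_cast; linarith
      have k2 : ((-1 : ℤ) : ℝ) < a (m + 1) := by simp only [a]; push_cast; linarith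
      rw [Int.cast_lt] at k1 k2
      rw [abs_le]; constructor <;> omega
  refine ⟨a, ⟨_, hb⟩, ?_⟩
  have ps : ∀ N : ℕ, ∑ n ∈ Finset.range (N + 1), (Int.cast (a n) : ℝ) * (1 / 2) ^ n =
      (⌊2 ^ N * s⌋ : ℝ) * (1 / 2) ^ N := by
    intro N
    induction N with
    | zero => simp [a]
    | succ N ih => rw [Finset.sum_range_succ, ih]; simp only [a]; push_cast; ring
  have t1 := ((sm a _ hb id fun _ => le_rfl).1.hasSum.tendsto_sum_nat).comp (tendsto_add_atTop_nat 1)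
  refine tendsto_nhds_unique t1 ?_
  have t2 : Tendsto (fun N : ℕ => s - (1 / 2 : ℝ) ^ N) atTop (𝓝 (s - 0)) :=
    (tendsto_pow_atTop_nhds_zero_of_lt_one (by norm_num) (by norm_num)).const_sub s
  rw [sub_zero] at t2
  refine tendsto_of_tendsto_of_tendsto_of_le_of_le t2 tendsto_const_nhds (fun N => ?_) fun N => ?_
  all_goals
    simp only [comp, id, ps]
    have h3 := Int.floor_le (2 ^ N * s)
    have h4 := Int.lt_floor_add_one (2 ^ N * s)
    have e : (2 : ℝ) ^ N * (1 / 2) ^ N = 1 := by rw [← mul_pow]; norm_num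
    have p : (0 : ℝ) < (1 / 2) ^ N := by positivity
    have e' : 2 ^ N * s * (1 / 2) ^ N = s := by rw [mul_right_comm, e, one_mul]
    have k1 := mul_le_mul_of_nonneg_right h3 p.le
    have k2 := mul_le_mul_of_nonneg_right h4.le p.le
    linarith

theorem ex : ∃ f : ℝ → ℝ, Measurable f ∧ f 0 = 1 ∧
    ∀ c : ℝ, 0 < c → ∃ t : ℝ, ∀ x, f (x + t) = -c * f x := by
  let Ω : AddSubgroup (ℕ → ℤ) :=
    { carrier := {a | ∃ M : ℕ, ∀ n, |a n| ≤ M}
      add_mem' := fun ⟨M, hM⟩ ⟨N, hN⟩ => ⟨M + N, fun n => by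
        push_cast; exact (abs_add_le _ _).trans (add_le_add (hM n) (hN n))⟩
      zero_mem' := ⟨0, by simp⟩
      neg_mem' := fun ⟨M, hM⟩ => ⟨M, by simpa using hM⟩ }
  have mΩ : MeasurableSet (Ω : Set (ℕ → ℤ)) := by
    show MeasurableSet {a : ℕ → ℤ | ∃ M : ℕ, ∀ n, |a n| ≤ M}
    measurability
  have : StandardBorelSpace Ω := mΩ.standardBorel
  have ad : ∀ (ν e : ℕ → ℕ), (∀ k, k ≤ e k) → ∀ a b : Ω,
      ∑' k, ((a + b).1 (ν k) : ℝ) * (1 / 2) ^ e k =
        ∑' k, (a.1 (ν k) : ℝ) * (1 / 2) ^ e k + ∑' k, (b.1 (ν k) : ℝ) * (1 / 2) ^ e k := by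
    rintro ν e he ⟨a, M, hM⟩ ⟨b, N, hN⟩
    rw [← (sm _ M (fun k => hM (ν k)) e he).1.tsum_add (sm _ N (fun k => hN (ν k)) e he).1]
    exact tsum_congr fun k => by simp [add_mul]
  have ms : ∀ (ν e : ℕ → ℕ), Measurable fun a : Ω => ∑' k, (a.1 (ν k) : ℝ) * (1 / 2) ^ e k :=
    fun ν e => Measurable.tsum fun k => ((measurable_from_top (f := fun z : ℤ => (z : ℝ))).comp
      ((measurable_pi_apply (ν k)).comp measurable_subtype_coe)).mul_const _
  let ι : Ω →+ ℝ := AddMonoidHom.mk' (fun a => ∑' k, (a.1 (Nat.unpair k).1 : ℝ) * (1 / 2) ^ (k * k))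
    (ad _ _ fun k => Nat.le_mul_self k)
  have inj : Injective ι := by
    rw [injective_iff_map_eq_zero]
    rintro ⟨a, M, hM⟩ h
    ext n
    have := dig (fun k => a (Nat.unpair k).1) M (fun k => hM _) h (Nat.pair n (M + 1))
      (Nat.right_le_pair n (M + 1))
    simpa using this
  let F : Ω → ℝ := fun a => (-1) ^ a.1 0 * Real.exp (∑' k, (a.1 (k + 1) : ℝ) * (1 / 2) ^ k)
  have mF : Measurable F := ((measurable_from_top (f := fun z : ℤ => (-1 : ℝ) ^ z)).comp
    ((measurable_pi_apply 0).comp measurable_subtype_coe)).mul (ms (· + 1) id).exp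
  have aF : ∀ a b, F (a + b) = F a * F b := fun a b => by
    have := ad (· + 1) id (fun _ => le_rfl) a b
    simp only [id] at this
    simp only [F, this]
    rw [Real.exp_add, AddSubgroup.coe_add, Pi.add_apply, zpow_add₀ (by norm_num : (-1 : ℝ) ≠ 0)]
    ring
  refine ⟨extend ι F 0, ((ms _ _).measurableEmbedding inj).measurable_extend mF measurable_zero, ?_,
    fun c hc => ?_⟩
  · rw [← map_zero ι, inj.extend_apply]; simp [F]
  · obtain ⟨a, ⟨M, hM⟩, ha⟩ := bin (Real.log c)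
    let a' : Ω := ⟨fun n => Nat.casesOn n 1 a, M + 1, fun n => by
      cases n with
      | zero => simp
      | succ n => push_cast; exact (hM n).trans (by linarith)⟩
    have e : F a' = -c := by
      show (-1 : ℝ) ^ (1 : ℤ) * Real.exp (∑' k, (a k : ℝ) * (1 / 2) ^ k) = -c
      rw [ha, Real.exp_log hc]; simp
    refine ⟨ι a', fun x => ?_⟩
    by_cases hx : ∃ b, ι b = x
    · obtain ⟨b, rfl⟩ := hx
      rw [← map_add, inj.extend_apply, inj.extend_apply, aF, e, mul_comm]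
    · rw [extend_apply' _ _ _ hx, extend_apply']
      · simp
      · rintro ⟨b, hb⟩
        exact hx ⟨b - a', by rw [map_sub, hb, add_sub_cancel_right]⟩

theorem result : ∃ f : ℝ → ℝ, Measurable f ∧ (¬∃ a b : ℝ, ∀ x, f x = a + b * x) ∧
    ∀ c : ℝ, 0 < c → ∃ φ : WithLp 2 (ℝ × ℝ) ≃ᵢ WithLp 2 (ℝ × ℝ),
      φ '' graph (fun x => c * f x) = graph f ∧ (¬∃ v, ∀ p, φ p = p + v) ∧ ∀ p, φ p ≠ p := by
  obtain ⟨f, hm, h0, h⟩ := ex
  refine ⟨f, hm, ?_, fun c hc => ?_⟩
  · rintro ⟨a, b, hab⟩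
    obtain ⟨t, ht⟩ := h 1 one_pos
    have h1 := ht 0
    have h2 := ht t
    rw [hab] at h0
    rw [hab, hab] at h1 h2
    linarith
  · obtain ⟨t, ht⟩ := h c hc
    let φ : WithLp 2 (ℝ × ℝ) ≃ᵢ WithLp 2 (ℝ × ℝ) :=
      { toFun := fun p => WithLp.toLp 2 (p.fst + t, -p.snd)
        invFun := fun p => WithLp.toLp 2 (p.fst - t, -p.snd)
        left_inv := fun p => WithLp.ofLp_injective 2 (Prod.ext (by simp) (by simp))
        right_inv := fun p => WithLp.ofLp_injective 2 (Prod.ext (by simp) (by simp))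
        isometry_toFun := Isometry.of_dist_eq fun p q => by simp [WithLp.prod_dist_eq_of_L2] }
    have e1 : ∀ p, (φ p).fst = p.fst + t := fun p => rfl
    have e2 : ∀ p, (φ p).snd = -p.snd := fun p => rfl
    refine ⟨φ, ?_, ?_, fun p hp => ?_⟩
    · ext p
      obtain ⟨q, rfl⟩ := φ.surjective p
      rw [φ.injective.mem_set_image]
      simp only [graph, mem_ofPred_eq, e1, e2, ht, neg_mul, neg_inj]
    · rintro ⟨v, hv⟩
      have a := congrArg WithLp.snd (hv 0)
      have b := congrArg WithLp.snd (hv (WithLp.toLp 2 (0, 1)))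
      simp [e2] at a b
      linarith
    · have a := congrArg WithLp.fst hp
      rw [e1, add_eq_left] at a
      have := ht 0
      rw [a, add_zero, h0] at this
      linarith

end Pool.Agent.Results.MP_f4f8d7_an.Glide
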